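import Mathlib
import Pool.Agent.V11242.RN.Forced

/-!
# Isomorphic forcing notions force the same sentences about null sets
-/

set_option autoImplicit false

namespace Pool.Agent.N645.NZ

open Pool.Agent.TH773.PSet Pool.Agent.V11242.RF Pool.Agent.V11242.RN Set

section Transport

variable {P Q : Type} [Preorder P] [Preorder Q] (e : P ≃o Q)

theorem pre_fnot (φ : Set Q) : fnot (e ⁻¹' φ) = e ⁻¹' fnot φ := by
  ext p
  constructor
  · intro h q hq hφ
    refine h (e.symm q) ((OrderIso.symm_apply_le e).2 hq) ?_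
    show e (e.symm q) ∈ φ
    rwa [OrderIso.apply_symm_apply]
  · intro h q hq hφ
    exact h (e q) (e.le_iff_le.2 hq) hφ

theorem pre_fand (φ ψ : Set Q) : fand (e ⁻¹' φ) (e ⁻¹' ψ) = e ⁻¹' fand φ ψ := rfl

theorem pre_fall {ι : Sort*} (φ : ι → Set Q) : fall (fun i => e ⁻¹' φ i) = e ⁻¹' fall φ := rfl

theorem pre_fimp (φ ψ : Set Q) : fimp (e ⁻¹' φ) (e ⁻¹' ψ) = e ⁻¹' fimp φ ψ := by
  unfold fimp
  rw [pre_fnot, pre_fand, pre_fnot]

theorem pre_fex {ι : Sort*} (φ : ι → Set Q) : fex (fun i => e ⁻¹' φ i) = e ⁻¹' fex φ := by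
  unfold fex
  simp only [pre_fnot, pre_fall]

theorem pre_meets (N : Set Q) : meets (e ⁻¹' N) = e ⁻¹' meets N := by
  ext p
  constructor
  · intro h q hq
    obtain ⟨r, hr, s, hs, hrs⟩ := h (e.symm q) ((OrderIso.symm_apply_le e).2 hq)
    exact ⟨e r, (OrderIso.le_symm_apply e).1 hr, e s, hs, e.le_iff_le.2 hrs⟩
  · intro h q hq
    obtain ⟨r, hr, s, hs, hrs⟩ := h (e q) (e.le_iff_le.2 hq)
    refine ⟨e.symm r, (OrderIso.symm_apply_le e).2 hr, e.symm s, ?_, e.symm.le_iff_le.2 hrs⟩
    show e (e.symm s) ∈ N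
    rwa [OrderIso.apply_symm_apply]

theorem pre_names {A : Type} (x : A → Set P) : ∃ y : A → Set Q, x = fun a => e ⁻¹' y a := by
  refine ⟨fun a => e.symm ⁻¹' x a, funext fun a => ?_⟩
  ext p
  show p ∈ x a ↔ e.symm (e p) ∈ x a
  rw [OrderIso.symm_apply_apply]

theorem fall_names {A : Type} (Φ : (A → Set P) → Set P) :
    fall Φ = fall fun y : A → Set Q => Φ fun a => e ⁻¹' y a := by
  ext p
  constructor
  · intro h y
    exact h _
  · intro h x
    obtain ⟨y, rfl⟩ := pre_names e x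
    exact h y

theorem fex_names {A : Type} (Φ : (A → Set P) → Set P) :
    fex Φ = fex fun y : A → Set Q => Φ fun a => e ⁻¹' y a := by
  unfold fex
  rw [fall_names e]

theorem pre_names₂ {A B : Type} (x : A → B → Set P) :
    ∃ y : A → B → Set Q, x = fun a b => e ⁻¹' y a b := by
  refine ⟨fun a b => e.symm ⁻¹' x a b, funext fun a => funext fun b => ?_⟩
  ext p
  show p ∈ x a b ↔ e.symm (e p) ∈ x a b
  rw [OrderIso.symm_apply_apply]

theorem pre_names₃ {A B C : Type} (x : A → B → C → Set P) :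
    ∃ y : A → B → C → Set Q, x = fun a b c => e ⁻¹' y a b c := by
  refine ⟨fun a b c => e.symm ⁻¹' x a b c, funext fun a => funext fun b => funext fun c => ?_⟩
  ext p
  show p ∈ x a b c ↔ e.symm (e p) ∈ x a b c
  rw [OrderIso.symm_apply_apply]

theorem fall_names₂ {A B : Type} (Φ : (A → B → Set P) → Set P) :
    fall Φ = fall fun y : A → B → Set Q => Φ fun a b => e ⁻¹' y a b := by
  ext p
  constructor
  · intro h y
    exact h _
  · intro h x
    obtain ⟨y, rfl⟩ := pre_names₂ e x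
    exact h y

theorem fall_names₃ {A B C : Type} (Φ : (A → B → C → Set P) → Set P) :
    fall Φ = fall fun y : A → B → C → Set Q => Φ fun a b c => e ⁻¹' y a b c := by
  ext p
  constructor
  · intro h y
    exact h _
  · intro h x
    obtain ⟨y, rfl⟩ := pre_names₃ e x
    exact h y

theorem fex_names₂ {A B : Type} (Φ : (A → B → Set P) → Set P) :
    fex Φ = fex fun y : A → B → Set Q => Φ fun a b => e ⁻¹' y a b := by
  unfold fex
  rw [fall_names₂ e]

theorem pre_isNullCode (c : ℕ → List Bool → Set Q) :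
    IsNullCode (fun n σ => e ⁻¹' c n σ) = e ⁻¹' IsNullCode c := by
  unfold IsNullCode
  simp only [pre_meets, pre_fall, pre_fnot]

theorem pre_bitIs (x : ℕ → Set Q) (i : ℕ) (v : Bool) :
    BitIs (fun i => e ⁻¹' x i) i v = e ⁻¹' BitIs x i v := by
  cases v
  · show fnot (meets _) = e ⁻¹' fnot (meets _)
    rw [pre_meets, pre_fnot]
  · show meets _ = e ⁻¹' meets _
    rw [pre_meets]

theorem pre_inNull (x : ℕ → Set Q) (c : ℕ → List Bool → Set Q) :
    InNull (fun i => e ⁻¹' x i) (fun n σ => e ⁻¹' c n σ) = e ⁻¹' InNull x c := by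
  unfold InNull Extends
  simp only [pre_bitIs, pre_meets, pre_fall, pre_fand, pre_fex]

theorem pre_nonNullFamily (K : Type) : NonNullFamily P K = e ⁻¹' NonNullFamily Q K := by
  unfold NonNullFamily
  rw [fex_names₂ e]
  simp only [fall_names₂ e, pre_isNullCode, pre_inNull, pre_fnot, pre_fex, pre_fimp, pre_fall]

theorem pre_noNullCover (K : Type) : NoNullCover P K = e ⁻¹' NoNullCover Q K := by
  unfold NoNullCover
  rw [fall_names₃ e]
  simp only [fex_names e, pre_isNullCode, pre_inNull, pre_fnot, pre_fex, pre_fimp, pre_fall]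

theorem phiHolds_iff (K : Type) : PhiHolds P K = e ⁻¹' PhiHolds Q K := by
  unfold PhiHolds
  rw [pre_nonNullFamily e, pre_noNullCover e, pre_fand]

end Transport

end Pool.Agent.N645.NZ
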