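import Mathlib
import Pool.Agent.R582.ZZ.Main
import Pool.Agent.V11242.RN.Ground
import Pool.Agent.V11242.SS.Forced
import Pool.Agent.N645.NZ.Transport

/-!
# `non(N) < 𝔷`
-/

set_option autoImplicit false

namespace Pool.Agent.N645.NZ

open Cardinal Set MeasureTheory Filter Topology
open Pool.Agent.TH773.PSet (Random coinProduct Cond fand)
open Pool.Agent.V11242.RF Pool.Agent.V11242.RN
open Pool.Agent.R582.ZZ Pool.Agent.R582.Rand

/-- The uniformity of the null ideal: the least cardinality of a set of elements of `2^ω` which is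
not null for the product measure `lam`. -/
noncomputable def nonN : Cardinal.{0} :=
  sInf {c | ∃ X : Set (ℕ → Bool), lam X ≠ 0 ∧ #X = c}

/-- `non(N) ≤ |K| < cov(N)`, and the combinatorial statement `Sel K` about the set `K`. -/
def NZFor (K : Type) : Prop := PhiFor K ∧ Sel K

/-- The sentence `NZFor K`, in the forcing language. -/
def NZHolds (P : Type) [Preorder P] (K : Type) : Set P := fand (PhiHolds P K) (SelN P K)

/-- The two presentations of the measure algebra are isomorphic. -/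
def iso {Ω : Type} [MeasurableSpace Ω] (μ : Measure Ω) : MAlg μ ≃o Cond μ where
  toFun p := ⟨p.s, p.meas, p.pos⟩
  invFun p := ⟨p.1, p.2.1, p.2.2⟩
  left_inv _ := rfl
  right_inv _ := rfl
  map_rel_iff' := Iff.rfl

theorem covCat_of_martin (hMA : Pool.Agent.W684.MartinAxiomAleph1) {ι : Type} (hι : #ι ≤ ℵ₁) :
    CovCat ι := by
  intro D hDo hDd
  rw [dense_iff_inter_open]
  intro U hU hUne
  let P : Type := {V : Set (ℕ → Bool) // IsOpen V ∧ V.Nonempty ∧ closure V ⊆ U}
  have hreg : ∀ V : Set (ℕ → Bool), IsOpen V → V.Nonempty →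
      ∃ W : Set (ℕ → Bool), IsOpen W ∧ W.Nonempty ∧ closure W ⊆ V := by
    rintro V hV ⟨x, hx⟩
    obtain ⟨W, hW1, hW2, hW3⟩ := exists_mem_nhds_isClosed_subset (hV.mem_nhds hx)
    refine ⟨interior W, isOpen_interior, ⟨x, mem_interior_iff_mem_nhds.2 hW1⟩, ?_⟩
    exact (hW2.closure_subset_iff.2 interior_subset).trans hW3
  have hPne : Nonempty P := by
    obtain ⟨W, h1, h2, h3⟩ := hreg U hU hUne
    exact ⟨⟨W, h1, h2, h3⟩⟩
  have hccc : ∀ A : Set P, (∀ p ∈ A, ∀ q ∈ A, p ≠ q → ¬ ∃ r : P, r ≤ p ∧ r ≤ q) → A.Countable := by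
    intro A hA
    refine Set.PairwiseDisjoint.countable_of_isOpen (s := fun p : P => p.1) (a := A) ?_
      (fun p _ => p.2.1) (fun p _ => p.2.2.1)
    intro p hp q hq hne
    by_contra hcon
    rw [Function.onFun, Set.not_disjoint_iff] at hcon
    obtain ⟨x, hx, hx'⟩ := hcon
    exact hA p hp q hq hne ⟨⟨p.1 ∩ q.1, p.2.1.inter q.2.1, ⟨x, hx, hx'⟩,
      (closure_mono inter_subset_left).trans p.2.2.2⟩, inter_subset_left, inter_subset_right⟩
  obtain ⟨G, hG1, hG2, hG3, hG4⟩ := Pool.Agent.W910.Hull.ma_indexed hMA (P := P) hccc hι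
    (fun i => {p : P | closure p.1 ⊆ D i}) (by
    intro i p
    have h1 : (p.1 ∩ D i).Nonempty := (hDd i).inter_open_nonempty _ p.2.1 p.2.2.1
    obtain ⟨W, h2, h3, h4⟩ := hreg _ (p.2.1.inter (hDo i)) h1
    refine ⟨⟨W, h2, h3, (h4.trans inter_subset_left).trans (subset_closure.trans p.2.2.2)⟩, ?_, ?_⟩
    · exact h4.trans inter_subset_right
    · exact (subset_closure.trans h4).trans inter_subset_left)
  have hGne : Nonempty G := hG1.to_subtype
  obtain ⟨x, hx⟩ := IsCompact.nonempty_iInter_of_directed_nonempty_isCompact_isClosed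
    (fun p : G => closure p.1.1) (by
      intro p q
      obtain ⟨r, hr, hr1, hr2⟩ := hG3 p.1 p.2 q.1 q.2
      exact ⟨⟨r, hr⟩, closure_mono hr1, closure_mono hr2⟩)
    (fun p => p.1.2.2.1.closure) (fun p => isClosed_closure.isCompact) (fun p => isClosed_closure)
  rw [mem_iInter] at hx
  refine ⟨x, ?_, ?_⟩
  · exact (Classical.arbitrary G).1.2.2.2 (hx _)
  · rw [mem_iInter]
    intro i
    obtain ⟨p, hp, hp'⟩ := hG4 i
    exact hp' (hx ⟨p, hp⟩)

/-- Under Martin's axiom for `ℵ₁` dense sets, adding `ℵ₂` random reals forces the sentence. -/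
theorem exists_forcing (hMA : Pool.Agent.W684.FM.MartinFor Pool.Agent.W684.FM.Om1) :
    ∃ (K P : Type) (_ : Preorder P), Nonempty P ∧
      (∀ A : Set P, (∀ p ∈ A, ∀ q ∈ A, p ≠ q → ¬ ∃ r, r ≤ p ∧ r ≤ q) → A.Countable) ∧
      ∀ p : P, p ∈ NZHolds P K := by
  let K : Type := (ℵ₁ : Cardinal.{0}).ord.ToType
  let I : Type := (ℵ_ 2 : Cardinal.{0}).out
  have hK1 : #K = ℵ₁ := Cardinal.mk_ord_toType _
  have hK : ℵ₀ < #K := by
    rw [hK1]
    exact aleph0_lt_aleph_one
  have hI : #K < #I := by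
    rw [hK1, mk_out]
    exact aleph_lt_aleph.2 (_root_.one_lt_two)
  have hMA' := Pool.Agent.W684.FM.martinFor_om1_iff.1 hMA
  have hidx : #((K ⊕ Finset (K × Bool)) × ℕ) ≤ ℵ₁ := by
    have hinf : Infinite K := Cardinal.infinite_iff.2 hK.le
    rw [Cardinal.mk_prod, Cardinal.lift_id, Cardinal.lift_id, Cardinal.mk_sum, Cardinal.lift_id,
      Cardinal.lift_id, Cardinal.mk_finset_of_infinite, Cardinal.mk_prod, Cardinal.lift_id,
      Cardinal.lift_id, hK1]
    have h1 : (ℵ₁ : Cardinal.{0}) * #Bool ≤ ℵ₁ :=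
      (mul_le_mul' le_rfl ((Cardinal.mk_le_aleph0 (α := Bool)).trans (aleph0_le_aleph 1))).trans
        (Cardinal.mul_eq_self (aleph0_le_aleph 1)).le
    refine (mul_le_mul' (Cardinal.add_le_of_le (aleph0_le_aleph 1) le_rfl h1)
      ((Cardinal.mk_le_aleph0 (α := ℕ)).trans (aleph0_le_aleph 1))).trans
        (Cardinal.mul_eq_self (aleph0_le_aleph 1)).le
  refine ⟨K, MAlg (coinProduct I), inferInstance, ⟨⟨Set.univ, MeasurableSet.univ, by simp⟩⟩, ?_,
    fun p => ⟨?_, ?_⟩⟩
  · intro A hA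
    rw [← Cardinal.le_aleph0_iff_set_countable]
    exact ccc A hA
  · rw [phiHolds_iff (iso (coinProduct I))]
    exact phiHolds hK hI _
  · refine selN_forced (covCat_of_martin hMA' hidx) ?_ p
    intro f
    exact Pool.Agent.V11242.SS.bounded_of_martin hMA' hK1.le f

theorem uncountable_of_phi {K : Type} (h : PhiFor K) : ℵ₀ < #K := by
  by_contra hcon
  rw [not_lt, Cardinal.mk_le_aleph0_iff] at hcon
  obtain ⟨r, hr⟩ := exists_nonnull h
  have h1 : NullSingletonClass lam := ⟨fun x => lam_of_inE (inE_singleton x)⟩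
  obtain ⟨k, hk⟩ := hr (range r) ((countable_range r).measure_zero lam)
  exact hk ⟨k, rfl⟩

theorem nonN_le {K : Type} (h : PhiFor K) : nonN ≤ #K := by
  obtain ⟨r, hr⟩ := exists_nonnull h
  have h1 : nonN ≤ #(range r) := by
    refine csInf_le' ⟨range r, fun h0 => ?_, rfl⟩
    obtain ⟨k, hk⟩ := hr _ h0
    exact hk ⟨k, rfl⟩
  exact h1.trans mk_range_le

theorem lt_zed {K : Type} (h : NZFor K) : #K < zed := by
  have hK := uncountable_of_phi h.1
  obtain ⟨X, _, hXi, hX2, hXc, hXn, hXw⟩ : zed ∈ {κ | ∃ (X : Type) (_ : TopologicalSpace X),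
      Infinite X ∧ T2Space X ∧ CompactSpace X ∧ NonSequential X ∧ weight X = κ} :=
    csInf_mem ⟨_, Ultrafilter ℕ, inferInstance,
      Infinite.of_injective _ Ultrafilter.pure_injective, inferInstance, inferInstance,
      ultra_nonseq, rfl⟩
  rw [← hXw, ← not_le]
  intro hle
  obtain ⟨B, hB, hBc⟩ := exists_basis X
  have hBne : Nonempty B := by
    obtain ⟨x⟩ : Nonempty X := inferInstance
    obtain ⟨b, hb, -, -⟩ := hB.exists_subset_of_mem_open (mem_univ x) isOpen_univ
    exact ⟨⟨b, hb⟩⟩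
  have hQ : #(B × B) ≤ #K := by
    rw [Cardinal.mk_prod, Cardinal.lift_id, hBc]
    exact (mul_le_mul' hle hle).trans (Cardinal.mul_eq_self hK.le).le
  obtain ⟨g, hg⟩ : ∃ g : K → B × B, Function.Surjective g := by
    obtain ⟨f⟩ := (Cardinal.le_def _ _).1 hQ
    exact ⟨Function.invFun f, Function.invFun_surjective f.injective⟩
  classical
  obtain ⟨u, x, hu, hux⟩ := exists_seq h.2
    (fun k => if Disjoint (g k).1.1 (g k).2.1 then (g k).1.1 else ∅)
    (fun k => if Disjoint (g k).1.1 (g k).2.1 then (g k).2.1 else ∅) (by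
      intro k
      split_ifs
      · exact hB.isOpen (g k).1.2
      · exact isOpen_empty) (by
      intro k
      split_ifs
      · exact hB.isOpen (g k).2.2
      · exact isOpen_empty) (by
      intro k
      split_ifs with h
      · exact h
      · exact disjoint_bot_left) (by
      intro x y hxy
      obtain ⟨O, O', hO, hO', hxO, hyO', hd⟩ := t2_separation hxy
      obtain ⟨b, hb, hxb, hbO⟩ := hB.exists_subset_of_mem_open hxO hO
      obtain ⟨b', hb', hyb', hbO'⟩ := hB.exists_subset_of_mem_open hyO' hO'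
      obtain ⟨k, hk⟩ := hg (⟨b, hb⟩, ⟨b', hb'⟩)
      have hdis : Disjoint b b' := hd.mono hbO hbO'
      refine ⟨k, ?_, ?_⟩
      · simp only [hk, if_pos hdis]
        exact hxb
      · simp only [hk, if_pos hdis]
        exact hyb')
  obtain ⟨N, y, hN⟩ := hXn.2 u x hux
  have h1 : u N = u (N + 1) := (hN N le_rfl).trans (hN (N + 1) (Nat.le_succ N)).symm
  have := hu h1
  omega

end Pool.Agent.N645.NZ
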